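import Pool.Agent.H96R2.EQP.D

set_option autoImplicit false

open Finset Filter

namespace Pool.Agent.H96R2.EQP

open Pool.Agent.H361R2.PP Pool.Agent.H398R2.BV

theorem eqPrime : EqPrime := by
  intro K A θ Λ hθ hΛ
  obtain ⟨B, x0, hB⟩ := weighted ((K : ℝ) + 1) (by have : (0:ℝ) ≤ K := Nat.cast_nonneg _; linarith) (A + 3)
  obtain ⟨k, hk⟩ := sum_pow_omega_div_totient ((K : ℝ) + 1)
    (by have : (0:ℝ) ≤ K := Nat.cast_nonneg _; linarith)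
  obtain ⟨c, hc⟩ : ∃ c : ℕ, c = 2 ^ k := ⟨_, rfl⟩
  rw [← hc] at hk
  obtain ⟨X1, hX1⟩ := Pr_lower
  obtain ⟨X2, hX2⟩ := W_le
  -- eventual conditions
  have e1 : ∀ᶠ X : ℝ in atTop, (2 : ℝ) ^ B * Real.log X ^ (B + 2) ≤ X ^ θ := ev_log _ _ θ hθ
  have e2 : ∀ᶠ X : ℝ in atTop, (8 * Λ * 2 ^ c) * Real.log X ^ (A + 3 + c) ≤ X ^ (1 : ℝ) :=
    ev_log _ _ 1 one_pos
  have e3 : ∀ᶠ X : ℝ in atTop, (2 * Λ + 2) * Real.log X ^ 1 ≤ X ^ (1 / 2 : ℝ) :=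
    ev_log _ _ (1 / 2) (by norm_num)
  have e4 : ∀ᶠ X : ℝ in atTop, (20 : ℝ) ≤ Real.log X :=
    Real.tendsto_log_atTop.eventually (eventually_ge_atTop 20)
  have e5 : ∀ᶠ X : ℝ in atTop, (3 : ℝ) ≤ X := eventually_ge_atTop 3
  obtain ⟨Y, hY⟩ := eventually_atTop.mp (e1.and (e2.and (e3.and (e4.and e5))))
  refine ⟨max (max X1 X2) (max x0 ⌈Y⌉₊), fun X hX b hb a₀ ha₀ => ?_⟩
  have hXX1 : X1 ≤ X := ((le_max_left _ _).trans (le_max_left _ _)).trans hX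
  have hXX2 : X2 ≤ X := ((le_max_right _ _).trans (le_max_left _ _)).trans hX
  have hXx0 : x0 ≤ X := ((le_max_left _ _).trans (le_max_right _ _)).trans hX
  have hXY : ⌈Y⌉₊ ≤ X := ((le_max_right _ _).trans (le_max_right _ _)).trans hX
  have hXYr : Y ≤ X := (Nat.le_ceil _).trans (by exact_mod_cast hXY)
  obtain ⟨g1, g2, g3, g4, g5⟩ := hY X hXYr
  have hPr := hX1 X hXX1
  have hW := hX2 X hXX2
  have hX0 : (0 : ℝ) < X := by linarith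
  have hXn : 1 ≤ X := by
    have : (1 : ℝ) ≤ X := by linarith
    exact_mod_cast this
  obtain ⟨ℓ, hℓ⟩ : ∃ ℓ : ℝ, ℓ = Real.log X := ⟨_, rfl⟩
  rw [← hℓ] at g1 g2 g3 g4 hPr hW ⊢
  have hℓ0 : 0 < ℓ := by linarith
  rw [Real.rpow_one] at g2
  rw [pow_one] at g3
  -- the shift
  unfold BB at ha₀
  rw [mem_filter, mem_Icc] at ha₀
  obtain ⟨⟨ha1, ha2⟩, hba⟩ := ha₀
  have ha2r : (a₀ : ℝ) ≤ Λ * ℓ := by
    have : (a₀ : ℝ) ≤ ⌊Λ * ℓ⌋₊ := by rw [hℓ]; exact_mod_cast ha2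
    exact this.trans (Nat.floor_le (by positivity))
  have hX12 : (X : ℝ) ^ (1 / 2 : ℝ) * (X : ℝ) ^ (1 / 2 : ℝ) = X := by
    rw [← Real.rpow_add hX0]; norm_num
  have hX12' : (1 : ℝ) ≤ (X : ℝ) ^ (1 / 2 : ℝ) := Real.one_le_rpow (by linarith) (by norm_num)
  have hX12X : (X : ℝ) ^ (1 / 2 : ℝ) ≤ X := by nlinarith
  have haX : (a₀ : ℝ) ≤ X := by
    have : Λ * ℓ ≤ (2 * Λ + 2) * ℓ := by nlinarith
    linarith
  have haXn : a₀ ≤ X := by exact_mod_cast haX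
  obtain ⟨W, hWd⟩ : ∃ W : ℕ, W = Wm X := ⟨_, rfl⟩
  have hW0 : 0 < W := by rw [hWd]; exact primorial_pos _
  have hW0r : (0 : ℝ) < W := by exact_mod_cast hW0
  -- the two endpoints
  obtain ⟨x1, hx1⟩ : ∃ x1 : ℕ, x1 = X + a₀ - 1 := ⟨_, rfl⟩
  obtain ⟨x2, hx2⟩ : ∃ x2 : ℕ, x2 = 2 * X + a₀ - 1 := ⟨_, rfl⟩
  have hx1a : X ≤ x1 := by omega
  have hx2a : X ≤ x2 := by omega
  have hx1b : x1 ≤ 3 * X := by omega
  have hx2b : x2 ≤ 3 * X := by omega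
  obtain ⟨M1, hM10, hM1, hM1s⟩ := hB x1 (hXx0.trans hx1a)
  obtain ⟨M2, hM20, hM2, hM2s⟩ := hB x2 (hXx0.trans hx2a)
  have hlogx : ∀ x : ℕ, X ≤ x → x ≤ 3 * X → ℓ ≤ Real.log x ∧ Real.log x ≤ 2 * ℓ := by
    intro x h1 h2
    have h1r : (X : ℝ) ≤ x := by exact_mod_cast h1
    have h2r : (x : ℝ) ≤ 3 * X := by exact_mod_cast h2
    constructor
    · rw [hℓ]; exact Real.log_le_log hX0 h1r
    · have : (x : ℝ) ≤ X ^ 2 := by nlinarith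
      calc Real.log x ≤ Real.log ((X : ℝ) ^ 2) := Real.log_le_log (by linarith) this
        _ = 2 * ℓ := by rw [Real.log_pow, hℓ]; norm_num
  -- the modulus is small
  have hqX : ∀ D : Finset ℕ, (∏ p ∈ D, (p : ℝ)) ≤ (X : ℝ) ^ (1 / 2 - θ) →
      (((W * ∏ p ∈ D, p : ℕ) : ℝ)) ≤ ℓ * (X : ℝ) ^ (1 / 2 - θ) := by
    intro D hD
    push_cast
    have h0 : (0 : ℝ) ≤ ∏ p ∈ D, (p : ℝ) := prod_nonneg fun _ _ => Nat.cast_nonneg _
    rw [hWd]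
    exact mul_le_mul hW hD h0 hℓ0.le
  have hqle : ∀ D : Finset ℕ, (∏ p ∈ D, (p : ℝ)) ≤ (X : ℝ) ^ (1 / 2 - θ) → W * ∏ p ∈ D, p ≤ X := by
    intro D hD
    have h1 := hqX D hD
    have h2 : (X : ℝ) ^ (1 / 2 - θ) ≤ (X : ℝ) ^ (1 / 2 : ℝ) :=
      Real.rpow_le_rpow_of_exponent_le (by linarith) (by linarith)
    have h3 : ℓ ≤ (X : ℝ) ^ (1 / 2 : ℝ) := by
      have : ℓ ≤ (2 * Λ + 2) * ℓ := by nlinarith
      linarith
    have h4 : (((W * ∏ p ∈ D, p : ℕ) : ℝ)) ≤ X := by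
      calc (((W * ∏ p ∈ D, p : ℕ) : ℝ)) ≤ ℓ * (X : ℝ) ^ (1 / 2 - θ) := h1
        _ ≤ (X : ℝ) ^ (1 / 2 : ℝ) * (X : ℝ) ^ (1 / 2 : ℝ) :=
          mul_le_mul h3 h2 (by positivity) (by positivity)
        _ = X := hX12
    exact_mod_cast h4
  have hqsq : ∀ D : Finset ℕ, (∏ p ∈ D, (p : ℝ)) ≤ (X : ℝ) ^ (1 / 2 - θ) → ∀ x : ℕ, X ≤ x →
      x ≤ 3 * X → Real.log x ^ B * (((W * ∏ p ∈ D, p : ℕ) : ℝ)) ^ 2 < x := by
    intro D hD x hxa hxb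
    obtain ⟨l1, l2⟩ := hlogx x hxa hxb
    have h1 := hqX D hD
    have h2 : (((W * ∏ p ∈ D, p : ℕ) : ℝ)) ^ 2 ≤ (ℓ * (X : ℝ) ^ (1 / 2 - θ)) ^ 2 :=
      pow_le_pow_left₀ (Nat.cast_nonneg _) h1 2
    have h3 : Real.log x ^ B ≤ (2 * ℓ) ^ B := pow_le_pow_left₀ (by linarith) l2 B
    have h4 : ((X : ℝ) ^ (1 / 2 - θ)) ^ 2 = X * ((X : ℝ) ^ (- (2 * θ))) := by
      rw [← Real.rpow_natCast, ← Real.rpow_mul hX0.le]
      rw [show (1 / 2 - θ) * ((2 : ℕ) : ℝ) = 1 + (-(2 * θ)) by push_cast; ring, Real.rpow_add hX0,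
        Real.rpow_one]
    have h5 : (2 * ℓ) ^ B * (ℓ * (X : ℝ) ^ (1 / 2 - θ)) ^ 2 =
        (2 ^ B * ℓ ^ (B + 2)) * ((X : ℝ) ^ (- (2 * θ))) * X := by
      rw [mul_pow ℓ, h4, mul_pow 2 ℓ]; ring
    have h6 : (2 ^ B * ℓ ^ (B + 2)) * ((X : ℝ) ^ (- (2 * θ))) ≤ (X : ℝ) ^ (-θ) := by
      calc (2 ^ B * ℓ ^ (B + 2)) * ((X : ℝ) ^ (- (2 * θ))) ≤ (X : ℝ) ^ θ * ((X : ℝ) ^ (- (2 * θ))) :=
            mul_le_mul_of_nonneg_right g1 (by positivity)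
        _ = (X : ℝ) ^ (-θ) := by
            rw [← Real.rpow_add hX0]; congr 1; ring
    have h7 : (X : ℝ) ^ (-θ) < 1 := Real.rpow_lt_one_of_one_lt_of_neg (by linarith) (by linarith)
    calc Real.log x ^ B * (((W * ∏ p ∈ D, p : ℕ) : ℝ)) ^ 2
        ≤ (2 * ℓ) ^ B * (ℓ * (X : ℝ) ^ (1 / 2 - θ)) ^ 2 :=
          mul_le_mul h3 h2 (by positivity) (by positivity)
      _ = (2 ^ B * ℓ ^ (B + 2)) * ((X : ℝ) ^ (- (2 * θ))) * X := h5
      _ ≤ (X : ℝ) ^ (-θ) * X := mul_le_mul_of_nonneg_right h6 hX0.le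
      _ < 1 * X := mul_lt_mul_of_pos_right h7 hX0
      _ = X := one_mul _
      _ ≤ x := by exact_mod_cast hxa
  -- the error
  have hPr0 : 0 ≤ Pr X := by unfold Pr; positivity
  have hφW : (0 : ℝ) < Nat.totient W := by exact_mod_cast Nat.totient_pos.mpr hW0
  have hΩ0 : 0 ≤ Pr X / Nat.totient W := by positivity
  obtain ⟨Er, hEr⟩ : ∃ Er : Finset ℕ → ℝ, Er = fun D : Finset ℕ =>
      if (∏ p ∈ D, (p : ℝ)) ≤ (X : ℝ) ^ (1 / 2 - θ) then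
        M2 (W * ∏ p ∈ D, p : ℕ) + M1 (W * ∏ p ∈ D, p : ℕ) +
          (a₀ : ℝ) / (Nat.totient (W * ∏ p ∈ D, p : ℕ) : ℝ)
      else (X : ℝ) + Pr X / Nat.totient W := ⟨_, rfl⟩
  rw [← hWd] at hb hba ⊢
  refine ⟨Er, ⟨?_, ?_, ?_⟩, ?_⟩
  · -- no prime of `P` divides
    intro n hn p hp a ha
    rw [Option.mem_def, Option.some.injEq] at ha
    subst ha
    rw [mem_filter, mem_Ico] at hn
    rw [mem_filter] at hp
    obtain ⟨hpp, _, hpX⟩ := PX_prime hp.1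
    intro hdvd
    have := (Nat.prime_dvd_prime_iff_eq hpp hn.2.2).mp hdvd
    omega
  · intro D
    rw [hEr]
    beta_reduce
    split_ifs
    · have := hM10 (W * ∏ p ∈ D, p)
      have := hM20 (W * ∏ p ∈ D, p)
      positivity
    · positivity
  · intro D hD r hr
    have hDP : ∀ p ∈ D, p ∈ PX X := fun p hp => (mem_filter.mp (hD hp)).1
    have hDp : ∀ p ∈ D, p.Prime := fun p hp => (PX_prime (hDP p hp)).1
    have hph : ∏ p ∈ D, ph (some a₀) p = ∏ p ∈ D, ((p : ℝ) - 1) := by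
      apply prod_congr rfl
      intro p _
      simp [ph]
    rw [hph, hEr]
    beta_reduce
    split_ifs with hsmall
    · have hcop := W_cop D hDP
      rw [← hWd] at hcop
      obtain ⟨cc, hcc, hmain⟩ := main_cmp X W b a₀ r D hXn hW0 hb hDp hcop hba
        (fun p hp => hr p hp a₀ rfl)
      have hm0 : 0 < ∏ p ∈ D, p := prod_pos fun p hp => (hDp p hp).pos
      have hq1 : 1 ≤ W * ∏ p ∈ D, p := Nat.mul_pos hW0 hm0
      have hqX' := hqle D hsmall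
      have m2 := hM2 _ cc hq1 hcc (hqsq D hsmall x2 hx2a hx2b) (hqX'.trans hx2a)
      have m1 := hM1 _ cc hq1 hcc (hqsq D hsmall x1 hx1a hx1b) (hqX'.trans hx1a)
      rw [hx2] at m2
      rw [hx1] at m1
      refine hmain.trans ?_
      linarith
    · have hcard : (((((Ico X (2 * X)).filter (fun n => n % W = b ∧ (n + a₀).Prime))).filter
          (fun n => ∀ p ∈ D, n % p = r % p)).card : ℝ) ≤ X := by
        have : (((Ico X (2 * X)).filter (fun n => n % W = b ∧ (n + a₀).Prime)).filter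
          (fun n => ∀ p ∈ D, n % p = r % p)).card ≤ (Ico X (2 * X)).card :=
          (card_filter_le _ _).trans (card_filter_le _ _)
        rw [Nat.card_Ico] at this
        have h2 : (((Ico X (2 * X)).filter (fun n => n % W = b ∧ (n + a₀).Prime)).filter
          (fun n => ∀ p ∈ D, n % p = r % p)).card ≤ X := by omega
        exact_mod_cast h2
      have hprod : (1 : ℝ) ≤ ∏ p ∈ D, ((p : ℝ) - 1) := by
        have h1 : ∀ p ∈ D, (1 : ℝ) ≤ (p : ℝ) - 1 := by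
          intro p hp
          have : (2 : ℝ) ≤ p := by exact_mod_cast (hDp p hp).two_le
          linarith
        calc (1 : ℝ) = ∏ _p ∈ D, (1 : ℝ) := by simp
          _ ≤ _ := prod_le_prod (fun _ _ => zero_le_one) h1
      have h1 : Pr X / Nat.totient W / ∏ p ∈ D, ((p : ℝ) - 1) ≤ Pr X / Nat.totient W :=
        div_le_self hΩ0 hprod
      have h2 : 0 ≤ Pr X / Nat.totient W / ∏ p ∈ D, ((p : ℝ) - 1) := by positivity
      have h3 : (0 : ℝ) ≤ (((((Ico X (2 * X)).filter (fun n => n % W = b ∧ (n + a₀).Prime))).filter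
          (fun n => ∀ p ∈ D, n % p = r % p)).card : ℝ) := Nat.cast_nonneg _
      rw [abs_le]
      constructor <;> linarith
  · -- the sum
    obtain ⟨F, hF⟩ : ∃ F : Finset (Finset ℕ), F = (PX X).powerset.filter
        (fun D : Finset ℕ => ∏ p ∈ D, (p : ℝ) ≤ (X : ℝ) ^ (1 / 2 - θ)) := ⟨_, rfl⟩
    rw [← hF]
    have hFm : ∀ D ∈ F, (∀ p ∈ D, p ∈ PX X) ∧ ∏ p ∈ D, (p : ℝ) ≤ (X : ℝ) ^ (1 / 2 - θ) := by
      intro D hD
      rw [hF, mem_filter, mem_powerset] at hD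
      exact ⟨fun p hp => hD.1 hp, hD.2⟩
    have hFp : ∀ D ∈ F, ∀ p ∈ D, p.Prime := fun D hD p hp => (PX_prime ((hFm D hD).1 p hp)).1
    have hFN : ∀ D ∈ F, W * ∏ p ∈ D, p ≤ X := fun D hD => hqle D (hFm D hD).2
    have hsplit : ∑ D ∈ F, (K : ℝ) ^ D.card * Er D =
        ∑ D ∈ F, (K : ℝ) ^ D.card * M2 (W * ∏ p ∈ D, p) +
        ∑ D ∈ F, (K : ℝ) ^ D.card * M1 (W * ∏ p ∈ D, p) +
        ∑ D ∈ F, (K : ℝ) ^ D.card * (a₀ / (Nat.totient (W * ∏ p ∈ D, p) : ℝ)) := by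
      rw [← sum_add_distrib, ← sum_add_distrib]
      apply sum_congr rfl
      intro D hD
      rw [hEr]
      beta_reduce
      rw [if_pos (hFm D hD).2]
      ring
    have s2 : ∑ D ∈ F, (K : ℝ) ^ D.card * M2 (W * ∏ p ∈ D, p) ≤ x2 / Real.log x2 ^ (A + 3) :=
      (sum_inj K W x2 hW0 F hFp (fun D hD => (hFN D hD).trans hx2a) M2 hM20).trans hM2s
    have s1 : ∑ D ∈ F, (K : ℝ) ^ D.card * M1 (W * ∏ p ∈ D, p) ≤ x1 / Real.log x1 ^ (A + 3) :=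
      (sum_inj K W x1 hW0 F hFp (fun D hD => (hFN D hD).trans hx1a) M1 hM10).trans hM1s
    have s3 : ∑ D ∈ F, (K : ℝ) ^ D.card * (a₀ / (Nat.totient (W * ∏ p ∈ D, p) : ℝ)) ≤
        a₀ * (1 + ℓ) ^ c := by
      refine (sum_inj K W X hW0 F hFp hFN (fun q => a₀ / (Nat.totient q : ℝ))
        (fun q => by positivity)).trans ?_
      have h1 := hk X
      rw [← hℓ] at h1
      calc ∑ q ∈ Icc 1 X, ((K : ℝ) + 1) ^ q.primeFactors.card * (a₀ / (Nat.totient q : ℝ))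
          = a₀ * ∑ q ∈ Icc 1 X, ((K : ℝ) + 1) ^ q.primeFactors.card / (Nat.totient q : ℝ) := by
            rw [mul_sum]; apply sum_congr rfl; intro q _; ring
        _ ≤ a₀ * (1 + ℓ) ^ c := mul_le_mul_of_nonneg_left h1 (Nat.cast_nonneg _)
    have t : ∀ x : ℕ, X ≤ x → x ≤ 3 * X → (x : ℝ) / Real.log x ^ (A + 3) ≤ 3 * X / ℓ ^ (A + 3) := by
      intro x h1 h2
      obtain ⟨l1, l2⟩ := hlogx x h1 h2
      have h2r : (x : ℝ) ≤ 3 * X := by exact_mod_cast h2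
      apply div_le_div₀ (by positivity) h2r (by positivity)
      exact pow_le_pow_left₀ hℓ0.le l1 _
    have t1 := t x1 hx1a hx1b
    have t2 := t x2 hx2a hx2b
    have t3 : (a₀ : ℝ) * (1 + ℓ) ^ c ≤ (1 / 8) * (X / ℓ ^ (A + 2)) := by
      have h1 : (1 + ℓ) ^ c ≤ 2 ^ c * ℓ ^ c := by
        rw [← mul_pow]; exact pow_le_pow_left₀ (by linarith) (by linarith) _
      have h2 : (a₀ : ℝ) * (1 + ℓ) ^ c ≤ (Λ * ℓ) * (2 ^ c * ℓ ^ c) :=
        mul_le_mul ha2r h1 (by positivity) (by positivity)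
      refine h2.trans ?_
      rw [mul_div_assoc', le_div_iff₀ (by positivity)]
      have h3 : (8 * Λ * 2 ^ c) * ℓ ^ (A + 3 + c) = 8 * (Λ * ℓ * (2 ^ c * ℓ ^ c) * ℓ ^ (A + 2)) := by
        rw [pow_add ℓ (A + 3), pow_add ℓ A 3, pow_add ℓ A 2]; ring
      linarith
    have t4 : (X : ℝ) / (2 * ℓ) / ℓ / ℓ ^ A ≤ Pr X / Nat.totient W / ℓ ^ A := by
      apply div_le_div_of_nonneg_right _ (by positivity)
      apply div_le_div₀ hPr0 hPr hφW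
      have : (Nat.totient W : ℝ) ≤ W := by exact_mod_cast Nat.totient_le W
      rw [hWd] at this ⊢
      linarith
    have t5 : (X : ℝ) / (2 * ℓ) / ℓ / ℓ ^ A = (1 / 2) * (X / ℓ ^ (A + 2)) := by
      have e : 2 * ℓ * (ℓ * ℓ ^ A) = 2 * ℓ ^ (A + 2) := by ring
      rw [div_div, div_div, e, ← div_div]
      ring
    have t6 : 3 * (X : ℝ) / ℓ ^ (A + 3) ≤ (3 / 20) * (X / ℓ ^ (A + 2)) := by
      have e : 3 * (X : ℝ) / ℓ ^ (A + 3) = (3 * (X / ℓ ^ (A + 2))) / ℓ := by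
        rw [pow_succ ℓ (A + 2), ← div_div, mul_div_assoc]
      rw [e, div_le_iff₀ hℓ0]
      have : 0 ≤ (X : ℝ) / ℓ ^ (A + 2) := by positivity
      nlinarith
    have t7 : 0 ≤ (X : ℝ) / ℓ ^ (A + 2) := by positivity
    rw [hsplit]
    linarith

end Pool.Agent.H96R2.EQP
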