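import Pool.Agent.H343R2.EH.Psi
import Pool.Agent.H343R2.EH.Primes
import Pool.Agent.H343R2.EH.Exc

set_option autoImplicit false

open Finset

namespace Pool.Agent.H96R2.EQP

lemma piAP_mod (x q a : ℕ) : H343E.piAP x q (a % q) = H343E.piAP x q a := by
  unfold H343E.piAP
  congr 2
  apply filter_congr
  intro p _
  unfold Nat.ModEq
  rw [Nat.mod_mod]

lemma triv_bound (x q a : ℕ) (hq : 1 ≤ q) (hqx : q ≤ x) :
    |H343E.piAP x q a - H343E.pi1 x / (Nat.totient q : ℝ)| ≤ 2 * x / (Nat.totient q : ℝ) := by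
  have hφ : (0 : ℝ) < Nat.totient q := by exact_mod_cast Nat.totient_pos.mpr (by omega)
  have hφq : (Nat.totient q : ℝ) ≤ q := by exact_mod_cast Nat.totient_le q
  have hq0 : (0 : ℝ) < q := by exact_mod_cast hq
  have hx0 : (q : ℝ) ≤ x := by exact_mod_cast hqx
  have h1 : H343E.piAP x q a ≤ x / q + 1 := by
    refine le_trans ?_ (H343E.card_mod x q a hq)
    unfold H343E.piAP
    have : ((Icc 1 x).filter (fun p => p.Prime ∧ p ≡ a [MOD q])).card ≤
        ((Icc 1 x).filter (fun m => m ≡ a [MOD q])).card := by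
      apply card_le_card
      intro p hp
      rw [mem_filter] at hp ⊢
      exact ⟨hp.1, hp.2.2⟩
    exact_mod_cast this
  have h2 : (x : ℝ) / q + 1 ≤ 2 * x / (Nat.totient q : ℝ) := by
    have a1 : (x : ℝ) / q ≤ x / (Nat.totient q : ℝ) := by
      apply div_le_div_of_nonneg_left (by linarith) hφ hφq
    have a2 : (1 : ℝ) ≤ x / (Nat.totient q : ℝ) := by
      rw [le_div_iff₀ hφ]; linarith
    have a3 : 2 * (x : ℝ) / (Nat.totient q : ℝ) = x / (Nat.totient q : ℝ) + x / (Nat.totient q : ℝ) := by ring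
    linarith
  have h3 : H343E.pi1 x ≤ x := by
    unfold H343E.pi1
    exact_mod_cast (card_filter_le _ _).trans (by simp)
  have h4 : H343E.pi1 x / (Nat.totient q : ℝ) ≤ 2 * x / (Nat.totient q : ℝ) := by
    apply div_le_div_of_nonneg_right _ hφ.le
    linarith
  have h5 : 0 ≤ H343E.piAP x q a := by unfold H343E.piAP; positivity
  have h6 : 0 ≤ H343E.pi1 x / (Nat.totient q : ℝ) := by unfold H343E.pi1; positivity
  rw [abs_le]
  constructor <;> linarith

open Pool.Agent.H398R2.BV in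
/-- Bombieri-Vinogradov, supremum over the classes, weights `K^ω(q)` -/
theorem weighted (K : ℝ) (hK : 1 ≤ K) (U : ℕ) : ∃ B x0 : ℕ, ∀ x : ℕ, x0 ≤ x →
    ∃ M : ℕ → ℝ, (∀ q, 0 ≤ M q) ∧
      (∀ q a : ℕ, 1 ≤ q → a.Coprime q → Real.log x ^ B * (q : ℝ) ^ 2 < x → q ≤ x →
        |H343E.piAP x q a - H343E.pi1 x / (Nat.totient q : ℝ)| ≤ M q) ∧
      ∑ q ∈ Icc 1 x, K ^ q.primeFactors.card * M q ≤ x / Real.log x ^ U := by
  obtain ⟨k, hk⟩ := sum_pow_omega_div_totient (K ^ 2) (one_le_pow₀ hK)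
  obtain ⟨c, hc⟩ : ∃ c : ℕ, c = 2 ^ k := ⟨_, rfl⟩
  rw [← hc] at hk
  obtain ⟨B, x0, hB⟩ := H343E.exceptional_of_primes
    (fun U => H343E.primes_of U (H343E.unsmoothed (U + 2))) (U + 1 + (U + 2 + c))
  obtain ⟨x1, hx1⟩ := Filter.eventually_atTop.mp
    (((Real.tendsto_log_atTop.comp tendsto_natCast_atTop_atTop).eventually
      (Filter.eventually_ge_atTop ((2:ℝ) ^ (c + 2)))))
  refine ⟨B, max (max x0 x1) 3, fun x hx => ?_⟩
  have hxx0 : x0 ≤ x := ((le_max_left _ _).trans (le_max_left _ _)).trans hx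
  have hxx1 : x1 ≤ x := ((le_max_right _ _).trans (le_max_left _ _)).trans hx
  have hx3 : 3 ≤ x := (le_max_right _ _).trans hx
  have hxr : (3 : ℝ) ≤ x := by exact_mod_cast hx3
  have hxp : (0 : ℝ) < x := by linarith
  have hlog : (2:ℝ) ^ (c + 2) ≤ Real.log x := hx1 x hxx1
  have h2c : (1 : ℝ) ≤ 2 ^ (c + 2) := one_le_pow₀ (by norm_num)
  set ℓ := Real.log x with hℓ
  have hℓ1 : 1 ≤ ℓ := by linarith
  have hℓ0 : 0 < ℓ := by linarith
  obtain ⟨E, M, hE, hM, hM0, hsum⟩ := hB x hxx0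
  refine ⟨fun q => min (M q) (2 * x / (Nat.totient q : ℝ)), fun q => ?_, fun q a hq ha hlt hqx => ?_, ?_⟩
  · exact le_min (hM0 q) (by positivity)
  · refine le_min ?_ (triv_bound x q a hq hqx)
    have hEq : E q = ∅ := by
      rw [← card_eq_zero]
      have h1 := hE q hq
      have h2 : ℓ ^ B * (q : ℝ) ^ 2 / x < 1 := by rw [div_lt_one hxp]; exact hlt
      have h3 : ((E q).card : ℝ) < 1 := lt_of_le_of_lt h1 h2
      have h4 : (E q).card < 1 := by exact_mod_cast h3
      omega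
    have hcop : (a % q).Coprime q := by
      have h6 := Nat.gcd_rec q a
      rw [Nat.Coprime, ← h6, Nat.gcd_comm]
      exact ha
    have h5 := hM q (a % q) hq (Nat.mod_lt _ (by omega)) hcop (by rw [hEq]; simp)
    rw [piAP_mod] at h5
    exact h5
  · obtain ⟨L, hL⟩ : ∃ L : ℝ, L = ℓ ^ (U + 2 + c) := ⟨_, rfl⟩
    have hL0 : 0 < L := by rw [hL]; positivity
    have hK0 : 0 < K := by linarith
    have hterm : ∀ q ∈ Icc 1 x, K ^ q.primeFactors.card * min (M q) (2 * x / (Nat.totient q : ℝ)) ≤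
        L * M q + (2 * x / L) * ((K ^ 2) ^ q.primeFactors.card / (Nat.totient q : ℝ)) := by
      intro q hq
      rw [mem_Icc] at hq
      have hφ : (0 : ℝ) < Nat.totient q := by exact_mod_cast Nat.totient_pos.mpr (by omega)
      have hKω : 0 < K ^ q.primeFactors.card := by positivity
      rcases le_total (K ^ q.primeFactors.card) L with h | h
      · have h1 : K ^ q.primeFactors.card * min (M q) (2 * x / (Nat.totient q : ℝ)) ≤ L * M q := by
          calc K ^ q.primeFactors.card * min (M q) (2 * x / (Nat.totient q : ℝ))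
              ≤ K ^ q.primeFactors.card * M q :=
                mul_le_mul_of_nonneg_left (min_le_left _ _) hKω.le
            _ ≤ L * M q := mul_le_mul_of_nonneg_right h (hM0 q)
        have h2 : 0 ≤ (2 * x / L) * ((K ^ 2) ^ q.primeFactors.card / (Nat.totient q : ℝ)) := by positivity
        linarith
      · have h1 : K ^ q.primeFactors.card * min (M q) (2 * x / (Nat.totient q : ℝ)) ≤
            (2 * x / L) * ((K ^ 2) ^ q.primeFactors.card / (Nat.totient q : ℝ)) := by
          calc K ^ q.primeFactors.card * min (M q) (2 * x / (Nat.totient q : ℝ))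
              ≤ K ^ q.primeFactors.card * (2 * x / (Nat.totient q : ℝ)) :=
                mul_le_mul_of_nonneg_left (min_le_right _ _) hKω.le
            _ ≤ (K ^ q.primeFactors.card * (K ^ q.primeFactors.card / L)) * (2 * x / (Nat.totient q : ℝ)) := by
                apply mul_le_mul_of_nonneg_right _ (by positivity)
                have : 1 ≤ K ^ q.primeFactors.card / L := by rw [one_le_div hL0]; exact h
                calc K ^ q.primeFactors.card = K ^ q.primeFactors.card * 1 := (mul_one _).symm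
                  _ ≤ _ := mul_le_mul_of_nonneg_left this hKω.le
            _ = (2 * x / L) * ((K ^ 2) ^ q.primeFactors.card / (Nat.totient q : ℝ)) := by
                rw [← pow_mul, mul_comm 2, pow_mul]; ring
        have h2 : 0 ≤ L * M q := mul_nonneg hL0.le (hM0 q)
        linarith
    have h1 := sum_le_sum hterm
    rw [sum_add_distrib, ← mul_sum, ← mul_sum] at h1
    have h2 : L * ∑ q ∈ Icc 1 x, M q ≤ x / ℓ ^ (U + 1) := by
      calc L * ∑ q ∈ Icc 1 x, M q ≤ L * (x / ℓ ^ (U + 1 + (U + 2 + c))) :=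
            mul_le_mul_of_nonneg_left hsum hL0.le
        _ = x / ℓ ^ (U + 1) := by rw [hL, pow_add ℓ (U + 1)]; field_simp
    have h3 : (2 * x / L) * ∑ q ∈ Icc 1 x, (K ^ 2) ^ q.primeFactors.card / (Nat.totient q : ℝ) ≤
        2 ^ (c + 1) * (x / ℓ ^ (U + 2)) := by
      have h4 : (1 + ℓ) ^ c ≤ 2 ^ c * ℓ ^ c := by
        rw [← mul_pow]; exact pow_le_pow_left₀ (by linarith) (by linarith) _
      calc (2 * x / L) * ∑ q ∈ Icc 1 x, (K ^ 2) ^ q.primeFactors.card / (Nat.totient q : ℝ)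
          ≤ (2 * x / L) * (2 ^ c * ℓ ^ c) := mul_le_mul_of_nonneg_left ((hk x).trans h4) (by positivity)
        _ = 2 ^ (c + 1) * (x / ℓ ^ (U + 2)) := by
            rw [hL, pow_add ℓ (U + 2), pow_succ 2 c]; field_simp
    have h5 : (x : ℝ) / ℓ ^ (U + 1) ≤ (1 / 2) * (x / ℓ ^ U) := by
      rw [pow_succ, ← div_div]
      have : 0 ≤ (x : ℝ) / ℓ ^ U := by positivity
      rw [div_le_iff₀ hℓ0]
      have h2l : (2 : ℝ) ≤ ℓ := by
        have : (2 : ℝ) ^ 1 ≤ 2 ^ (c + 2) := pow_le_pow_right₀ (by norm_num) (by omega)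
        linarith
      nlinarith
    have h6 : 2 ^ (c + 1) * (x / ℓ ^ (U + 2)) ≤ (1 / 2) * (x / ℓ ^ U) := by
      have e : (x : ℝ) / ℓ ^ (U + 2) = (x / ℓ ^ U) / ℓ ^ 2 := by rw [pow_add, ← div_div]
      rw [e, mul_div_assoc', div_le_iff₀ (by positivity)]
      have h7 : 0 ≤ (x : ℝ) / ℓ ^ U := by positivity
      have h8 : 2 ^ (c + 1) * 2 ≤ ℓ := by
        have : (2 : ℝ) ^ (c + 1) * 2 = 2 ^ (c + 2) := by ring
        linarith
      have h9 : ℓ ≤ ℓ ^ 2 := by nlinarith
      have h10 : 2 ^ (c + 1) ≤ (1 / 2) * ℓ ^ 2 := by linarith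
      calc 2 ^ (c + 1) * (x / ℓ ^ U) ≤ ((1 / 2) * ℓ ^ 2) * (x / ℓ ^ U) :=
            mul_le_mul_of_nonneg_right h10 h7
        _ = 1 / 2 * (x / ℓ ^ U) * ℓ ^ 2 := by ring
    linarith

end Pool.Agent.H96R2.EQP
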