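import Pool.Agent.H343R2.EH.Defs
import Pool.Agent.H361R2.PP.Iface

set_option autoImplicit false

open Finset

namespace Pool.Agent.H96R2.EQP

open Pool.Agent.H361R2.PP

lemma prod_dvd_iff (D : Finset ℕ) (hD : ∀ p ∈ D, p.Prime) (n r : ℕ) :
    (∀ p ∈ D, n % p = r % p) ↔ n ≡ r [MOD ∏ p ∈ D, p] := by
  rw [← Int.natCast_modEq_iff, Int.modEq_iff_dvd]
  constructor
  · intro h
    push_cast
    apply Finset.prod_dvd_of_coprime
    · intro p hp q hq hpq
      simp only [Function.onFun]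
      rw [Nat.isCoprime_iff_coprime]
      exact (Nat.coprime_primes (hD p hp) (hD q hq)).mpr hpq
    · intro p hp
      have := h p hp
      have h2 : n ≡ r [MOD p] := this
      rw [← Int.natCast_modEq_iff, Int.modEq_iff_dvd] at h2
      exact h2
  · intro h p hp
    have h1 : ((p : ℕ) : ℤ) ∣ ((∏ p ∈ D, p : ℕ) : ℤ) := by
      exact_mod_cast Finset.dvd_prod_of_mem (fun p => p) hp
    have h2 := h1.trans h
    have h3 : n ≡ r [MOD p] := by
      rw [← Int.natCast_modEq_iff, Int.modEq_iff_dvd]; exact h2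
    exact h3

/-- counting primes in an interval and a class -/
lemma count_interval (u v q c : ℕ) (hu : 1 ≤ u) (huv : u ≤ v) :
    (((Ico u v).filter (fun l => l.Prime ∧ l ≡ c [MOD q])).card : ℝ) =
      H343E.piAP (v - 1) q c - H343E.piAP (u - 1) q c := by
  unfold H343E.piAP
  have h1 : (Icc 1 (v - 1)).filter (fun p => p.Prime ∧ p ≡ c [MOD q]) =
      (Icc 1 (u - 1)).filter (fun p => p.Prime ∧ p ≡ c [MOD q]) ∪
        (Ico u v).filter (fun l => l.Prime ∧ l ≡ c [MOD q]) := by
    rw [← filter_union]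
    congr 1
    ext n
    rw [mem_union, mem_Icc, mem_Icc, mem_Ico]
    omega
  have h2 : Disjoint ((Icc 1 (u - 1)).filter (fun p => p.Prime ∧ p ≡ c [MOD q]))
      ((Ico u v).filter (fun l => l.Prime ∧ l ≡ c [MOD q])) := by
    rw [Finset.disjoint_left]
    intro n hn hn'
    rw [mem_filter, mem_Icc] at hn
    rw [mem_filter, mem_Ico] at hn'
    omega
  rw [h1, card_union_of_disjoint h2]
  push_cast
  ring

lemma count_interval1 (u v : ℕ) (hu : 1 ≤ u) (huv : u ≤ v) :
    (((Ico u v).filter (fun l => l.Prime)).card : ℝ) = H343E.pi1 (v - 1) - H343E.pi1 (u - 1) := by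
  unfold H343E.pi1
  have h1 : (Icc 1 (v - 1)).filter (fun p => p.Prime) =
      (Icc 1 (u - 1)).filter (fun p => p.Prime) ∪
        (Ico u v).filter (fun l => l.Prime) := by
    rw [← filter_union]
    congr 1
    ext n
    rw [mem_union, mem_Icc, mem_Icc, mem_Ico]
    omega
  have h2 : Disjoint ((Icc 1 (u - 1)).filter (fun p => p.Prime))
      ((Ico u v).filter (fun l => l.Prime)) := by
    rw [Finset.disjoint_left]
    intro n hn hn'
    rw [mem_filter, mem_Icc] at hn
    rw [mem_filter, mem_Ico] at hn'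
    omega
  rw [h1, card_union_of_disjoint h2]
  push_cast
  ring

/-- a shift changes the number of primes by at most `a` -/
lemma shift_primes (X a : ℕ) :
    |(((Ico (X + a) (2 * X + a)).filter (fun l => l.Prime)).card : ℝ) - Pr X| ≤ a := by
  unfold Pr
  have h1 : ((Ico (X + a) (2 * X + a)).filter (fun l => l.Prime)).card ≤
      ((Ico X (2 * X)).filter Nat.Prime).card + a := by
    calc ((Ico (X + a) (2 * X + a)).filter (fun l => l.Prime)).card
        ≤ (((Ico X (2 * X)).filter Nat.Prime) ∪ Ico (2 * X) (2 * X + a)).card := by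
          apply card_le_card
          intro n hn
          rw [mem_filter, mem_Ico] at hn
          rw [mem_union, mem_filter, mem_Ico, mem_Ico]
          by_cases h : n < 2 * X
          · left; exact ⟨⟨by omega, h⟩, hn.2⟩
          · right; omega
      _ ≤ ((Ico X (2 * X)).filter Nat.Prime).card + (Ico (2 * X) (2 * X + a)).card := card_union_le _ _
      _ = _ := by rw [Nat.card_Ico]; omega
  have h2 : ((Ico X (2 * X)).filter Nat.Prime).card ≤
      ((Ico (X + a) (2 * X + a)).filter (fun l => l.Prime)).card + a := by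
    calc ((Ico X (2 * X)).filter Nat.Prime).card
        ≤ (((Ico (X + a) (2 * X + a)).filter (fun l => l.Prime)) ∪ Ico X (X + a)).card := by
          apply card_le_card
          intro n hn
          rw [mem_filter, mem_Ico] at hn
          rw [mem_union, mem_filter, mem_Ico, mem_Ico]
          by_cases h : n < X + a
          · right; omega
          · left; exact ⟨⟨by omega, by omega⟩, hn.2⟩
      _ ≤ ((Ico (X + a) (2 * X + a)).filter (fun l => l.Prime)).card + (Ico X (X + a)).card := card_union_le _ _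
      _ = _ := by rw [Nat.card_Ico]; omega
  have h1' : (((Ico (X + a) (2 * X + a)).filter (fun l => l.Prime)).card : ℝ) ≤
      (((Ico X (2 * X)).filter Nat.Prime).card : ℝ) + a := by exact_mod_cast h1
  have h2' : (((Ico X (2 * X)).filter Nat.Prime).card : ℝ) ≤
      (((Ico (X + a) (2 * X + a)).filter (fun l => l.Prime)).card : ℝ) + a := by exact_mod_cast h2
  rw [abs_le]
  constructor <;> linarith

lemma totient_prod (D : Finset ℕ) (hD : ∀ p ∈ D, p.Prime) :
    (Nat.totient (∏ p ∈ D, p) : ℝ) = ∏ p ∈ D, ((p : ℝ) - 1) := by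
  classical
  induction D using Finset.induction_on with
  | empty => simp
  | insert p D hp ih =>
    rw [Finset.prod_insert hp, Finset.prod_insert hp, Nat.totient_mul, Nat.cast_mul,
      ih (fun q hq => hD q (Finset.mem_insert_of_mem hq)),
      Nat.totient_prime (hD p (Finset.mem_insert_self _ _)), Nat.cast_sub
        (hD p (Finset.mem_insert_self _ _)).one_le, Nat.cast_one]
    apply Nat.Coprime.prod_right
    intro q hq
    exact (Nat.coprime_primes (hD p (Finset.mem_insert_self _ _))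
      (hD q (Finset.mem_insert_of_mem hq))).mpr (fun h => hp (h ▸ hq))

/-- the main comparison -/
theorem main_cmp (X W b a₀ r : ℕ) (D : Finset ℕ) (hX : 1 ≤ X) (hW : 0 < W) (hb : b < W)
    (hD : ∀ p ∈ D, p.Prime) (hcop : W.Coprime (∏ p ∈ D, p)) (hba : (b + a₀).Coprime W)
    (hr : ∀ p ∈ D, ¬ p ∣ r + a₀) :
    ∃ c : ℕ, c.Coprime (W * ∏ p ∈ D, p) ∧
    |(((((Ico X (2 * X)).filter (fun n => n % W = b ∧ (n + a₀).Prime))).filter
      (fun n => ∀ p ∈ D, n % p = r % p)).card : ℝ) -
        Pr X / Nat.totient W / ∏ p ∈ D, ((p : ℝ) - 1)| ≤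
    |H343E.piAP (2 * X + a₀ - 1) (W * ∏ p ∈ D, p) c -
        H343E.pi1 (2 * X + a₀ - 1) / (Nat.totient (W * ∏ p ∈ D, p) : ℝ)| +
    |H343E.piAP (X + a₀ - 1) (W * ∏ p ∈ D, p) c -
        H343E.pi1 (X + a₀ - 1) / (Nat.totient (W * ∏ p ∈ D, p) : ℝ)| +
      a₀ / (Nat.totient (W * ∏ p ∈ D, p) : ℝ) := by
  obtain ⟨m, hm⟩ : ∃ m : ℕ, m = ∏ p ∈ D, p := ⟨_, rfl⟩
  obtain ⟨c, hcW, hcm⟩ := Nat.chineseRemainder hcop b r
  rw [← hm] at hcop hcm ⊢
  have hm0 : 0 < m := by rw [hm]; exact Finset.prod_pos fun p hp => (hD p hp).pos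
  have hc1 : (c + a₀).Coprime W := by
    have h1 : c + a₀ ≡ b + a₀ [MOD W] := hcW.add_right _
    rw [Nat.Coprime, h1.gcd_eq]
    exact hba
  have hc2 : (c + a₀).Coprime m := by
    rw [hm]
    apply Nat.Coprime.prod_right
    intro p hp
    have hpp := hD p hp
    apply Nat.Coprime.symm
    rw [Nat.Prime.coprime_iff_not_dvd hpp]
    intro hdvd
    apply hr p hp
    have hpm : p ∣ m := by rw [hm]; exact Finset.dvd_prod_of_mem (fun p => p) hp
    have h1 : c + a₀ ≡ r + a₀ [MOD p] := (hcm.of_dvd hpm).add_right _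
    exact (h1.dvd_iff dvd_rfl).mp hdvd
  refine ⟨c + a₀, hc1.mul_right hc2, ?_⟩
  -- the count
  have hcount : (((((Ico X (2 * X)).filter (fun n => n % W = b ∧ (n + a₀).Prime))).filter
      (fun n => ∀ p ∈ D, n % p = r % p)).card : ℝ) =
      (((Ico (X + a₀) (2 * X + a₀)).filter (fun l => l.Prime ∧ l ≡ c + a₀ [MOD W * m])).card : ℝ) := by
    congr 1
    apply Finset.card_bij (fun n _ => n + a₀)
    · intro n hn
      rw [mem_filter, mem_filter, mem_Ico] at hn
      rw [mem_filter, mem_Ico]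
      refine ⟨by omega, hn.1.2.2, ?_⟩
      apply Nat.ModEq.add_right
      rw [← Nat.modEq_and_modEq_iff_modEq_mul hcop]
      constructor
      · have h1 : n ≡ b [MOD W] := by
          rw [Nat.ModEq, hn.1.2.1, Nat.mod_eq_of_lt hb]
        exact h1.trans hcW.symm
      · have h1 := (prod_dvd_iff D hD n r).mp hn.2
        rw [← hm] at h1
        exact h1.trans hcm.symm
    · intro n _ n' _ h; exact Nat.add_right_cancel h
    · intro l hl
      rw [mem_filter, mem_Ico] at hl
      refine ⟨l - a₀, ?_, by omega⟩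
      have hla : l - a₀ + a₀ = l := by omega
      have h1 : l - a₀ + a₀ ≡ c + a₀ [MOD W * m] := by rw [hla]; exact hl.2.2
      have h2 : l - a₀ ≡ c [MOD W * m] := Nat.ModEq.add_right_cancel' _ h1
      rw [← Nat.modEq_and_modEq_iff_modEq_mul hcop] at h2
      rw [mem_filter, mem_filter, mem_Ico]
      refine ⟨⟨by omega, ?_, ?_⟩, ?_⟩
      · have h3 := h2.1.trans hcW
        rw [Nat.ModEq, Nat.mod_eq_of_lt hb] at h3
        exact h3
      · rw [hla]; exact hl.2.1
      · rw [prod_dvd_iff D hD, ← hm]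
        exact h2.2.trans hcm
  rw [hcount, count_interval _ _ _ _ (by omega) (by omega)]
  have hP := shift_primes X a₀
  rw [count_interval1 _ _ (by omega) (by omega)] at hP
  have hφ : (Nat.totient (W * m) : ℝ) = Nat.totient W * ∏ p ∈ D, ((p : ℝ) - 1) := by
    rw [Nat.totient_mul hcop, Nat.cast_mul, hm, totient_prod D hD]
  have hφ0 : (0 : ℝ) < Nat.totient (W * m) := by
    exact_mod_cast Nat.totient_pos.mpr (Nat.mul_pos hW hm0)
  have e1 : Pr X / Nat.totient W / ∏ p ∈ D, ((p : ℝ) - 1) = Pr X / (Nat.totient (W * m) : ℝ) := by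
    rw [hφ, div_div]
  rw [e1]
  obtain ⟨φ, hφe⟩ : ∃ φ : ℝ, φ = (Nat.totient (W * m) : ℝ) := ⟨_, rfl⟩
  rw [← hφe] at hφ0 ⊢
  have e2 : H343E.piAP (2 * X + a₀ - 1) (W * m) (c + a₀) - H343E.piAP (X + a₀ - 1) (W * m) (c + a₀) -
      Pr X / φ = (H343E.piAP (2 * X + a₀ - 1) (W * m) (c + a₀) - H343E.pi1 (2 * X + a₀ - 1) / φ) -
      (H343E.piAP (X + a₀ - 1) (W * m) (c + a₀) - H343E.pi1 (X + a₀ - 1) / φ) +
      (H343E.pi1 (2 * X + a₀ - 1) - H343E.pi1 (X + a₀ - 1) - Pr X) / φ := by ring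
  rw [e2]
  refine (abs_add_le _ _).trans ?_
  have e3 : |(H343E.pi1 (2 * X + a₀ - 1) - H343E.pi1 (X + a₀ - 1) - Pr X) / φ| ≤ a₀ / φ := by
    rw [abs_div, abs_of_pos hφ0]
    exact div_le_div_of_nonneg_right hP hφ0.le
  have e4 := abs_sub (H343E.piAP (2 * X + a₀ - 1) (W * m) (c + a₀) - H343E.pi1 (2 * X + a₀ - 1) / φ)
    (H343E.piAP (X + a₀ - 1) (W * m) (c + a₀) - H343E.pi1 (X + a₀ - 1) / φ)
  linarith

end Pool.Agent.H96R2.EQP
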