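import Pool.Agent.Helper923.PNT
import Pool.Agent.H361R2.PP.Iface

set_option autoImplicit false

open Finset Filter

namespace Pool.Agent.H96R2.EQP

open Pool.Agent.H361R2.PP

lemma Pr_eq (X : ℕ) (hX : 1 ≤ X) :
    (Nat.primeCounting (2 * X) : ℝ) - Nat.primeCounting X - 1 ≤ Pr X := by
  unfold Pr
  have h1 : Nat.primeCounting (2 * X) ≤ Nat.primeCounting X + ((Ico X (2 * X)).filter Nat.Prime).card + 1 := by
    have hA : ∀ Y : ℕ, Nat.primeCounting Y = ((range (Y + 1)).filter Nat.Prime).card := by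
      intro Y
      rw [Nat.primeCounting, Nat.primeCounting', Nat.count_eq_card_filter_range]
    rw [hA, hA]
    calc ((range (2 * X + 1)).filter Nat.Prime).card
        ≤ (((range (X + 1)).filter Nat.Prime ∪ (Ico X (2 * X)).filter Nat.Prime) ∪ {2 * X}).card := by
          apply card_le_card
          intro n hn
          rw [mem_filter, mem_range] at hn
          rw [mem_union, mem_union, mem_filter, mem_filter, mem_range, mem_Ico, mem_singleton]
          by_cases h1 : n = 2 * X
          · right; exact h1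
          · left
            by_cases h2 : n < X + 1
            · left; exact ⟨h2, hn.2⟩
            · right; exact ⟨by omega, hn.2⟩
      _ ≤ ((range (X + 1)).filter Nat.Prime ∪ (Ico X (2 * X)).filter Nat.Prime).card + 1 := by
          refine (card_union_le _ _).trans ?_
          rw [card_singleton]
      _ ≤ _ := by
          have := card_union_le ((range (X + 1)).filter Nat.Prime) ((Ico X (2 * X)).filter Nat.Prime)
          omega
  have h2 : (Nat.primeCounting (2 * X) : ℝ) ≤ Nat.primeCounting X + ((Ico X (2 * X)).filter Nat.Prime).card + 1 := by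
    exact_mod_cast h1
  linarith

theorem Pr_lower : ∃ X₀ : ℕ, ∀ X : ℕ, X₀ ≤ X → (X : ℝ) / (2 * Real.log X) ≤ Pr X := by
  have h1 := Pool.Agent.Helper923.PNT.pi_tendsto.comp (tendsto_natCast_atTop_atTop (R := ℝ))
  have h2 : ∀ᶠ X : ℕ in atTop, (Nat.primeCounting X : ℝ) * Real.log X / X ≤ 11 / 10 := by
    have := h1.eventually (Iic_mem_nhds (show (1:ℝ) < 11 / 10 by norm_num))
    filter_upwards [this] with X hX
    simp only [Function.comp, Nat.floor_natCast] at hX
    exact hX
  have h3 : ∀ᶠ X : ℕ in atTop, (95 / 100 : ℝ) ≤ (Nat.primeCounting X : ℝ) * Real.log X / X := by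
    have := h1.eventually (Ici_mem_nhds (show (95 / 100 : ℝ) < 1 by norm_num))
    filter_upwards [this] with X hX
    simp only [Function.comp, Nat.floor_natCast] at hX
    exact hX
  have h4 : ∀ᶠ X : ℕ in atTop, (95 / 100 : ℝ) ≤
      (Nat.primeCounting (2 * X) : ℝ) * Real.log ((2 * X : ℕ) : ℝ) / ((2 * X : ℕ) : ℝ) :=
    (tendsto_id.const_mul_atTop' (show 0 < 2 by norm_num)).eventually h3
  have h5 : ∀ᶠ X : ℕ in atTop, (10 : ℝ) ≤ Real.log X :=
    (Real.tendsto_log_atTop.comp tendsto_natCast_atTop_atTop).eventually (eventually_ge_atTop 10)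
  have h6 : ∀ᶠ X : ℕ in atTop, (100 : ℝ) * Real.log X ≤ X := by
    have h := (Real.isLittleO_log_id_atTop.comp_tendsto (tendsto_natCast_atTop_atTop (R := ℝ))).bound
      (show (0:ℝ) < 1 / 100 by norm_num)
    filter_upwards [h, eventually_ge_atTop 1] with X hX hX1
    have hX1' : (1 : ℝ) ≤ X := by exact_mod_cast hX1
    simp only [Function.comp, id, Real.norm_eq_abs, abs_of_nonneg (Real.log_nonneg hX1'),
      abs_of_nonneg (by linarith : (0:ℝ) ≤ X)] at hX
    linarith
  obtain ⟨X₀, hX₀⟩ := eventually_atTop.mp (h2.and (h4.and (h5.and h6)))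
  refine ⟨max X₀ 1, fun X hX => ?_⟩
  obtain ⟨a2, a4, a5, a6⟩ := hX₀ X ((le_max_left _ _).trans hX)
  have hX1 : 1 ≤ X := (le_max_right _ _).trans hX
  have hXr : (1 : ℝ) ≤ X := by exact_mod_cast hX1
  have hX0 : (0 : ℝ) < X := by linarith
  have hP := Pr_eq X hX1
  set ℓ := Real.log X with hℓ
  have hℓ0 : 0 < ℓ := by linarith
  have hlog2X : Real.log ((2 * X : ℕ) : ℝ) ≤ 11 / 10 * ℓ := by
    push_cast
    rw [Real.log_mul (by norm_num) hX0.ne']
    have := Real.log_two_lt_d9
    linarith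
  have hlog2X0 : 0 < Real.log ((2 * X : ℕ) : ℝ) := by
    push_cast
    rw [Real.log_mul (by norm_num) hX0.ne']
    have := Real.log_two_gt_d9
    linarith
  rw [div_le_iff₀ hX0] at a2
  rw [le_div_iff₀ (by push_cast; linarith)] at a4
  push_cast at a4
  have hpc : (0:ℝ) ≤ Nat.primeCounting (2 * X) := Nat.cast_nonneg _
  have b1 : (95 / 100 : ℝ) * (2 * X) ≤ (Nat.primeCounting (2 * X) : ℝ) * (11 / 10 * ℓ) := by
    refine a4.trans ?_
    push_cast at hlog2X
    exact mul_le_mul_of_nonneg_left hlog2X hpc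
  rw [div_le_iff₀ (by positivity)]
  nlinarith

theorem W_le : ∃ X₀ : ℕ, ∀ X : ℕ, X₀ ≤ X → (Wm X : ℝ) ≤ Real.log X := by
  have h5 : ∀ᶠ X : ℕ in atTop, (3 : ℝ) ≤ Real.log X :=
    (Real.tendsto_log_atTop.comp tendsto_natCast_atTop_atTop).eventually (eventually_ge_atTop 3)
  obtain ⟨X₀, hX₀⟩ := eventually_atTop.mp h5
  refine ⟨X₀, fun X hX => ?_⟩
  have h3 := hX₀ X hX
  have hll : 0 ≤ Real.log (Real.log X) := Real.log_nonneg (by linarith)
  have h1 : (Wm X : ℝ) ≤ 4 ^ (HH X) := by
    unfold Wm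
    exact_mod_cast primorial_le_four_pow (HH X)
  have h2 : (HH X : ℝ) ≤ Real.log (Real.log X) / 4 := Nat.floor_le (by positivity)
  have hl4 : Real.log 4 ≤ 2 := by
    have : Real.log 4 = 2 * Real.log 2 := by
      rw [show (4:ℝ) = 2 ^ 2 by norm_num, Real.log_pow]; norm_num
    have := Real.log_two_lt_d9
    linarith
  calc (Wm X : ℝ) ≤ 4 ^ (HH X) := h1
    _ = Real.exp (HH X * Real.log 4) := by
        rw [mul_comm, Real.exp_mul, Real.exp_log (by norm_num), Real.rpow_natCast]
    _ ≤ Real.exp (Real.log (Real.log X)) := by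
        apply Real.exp_le_exp.mpr
        have : (0:ℝ) ≤ HH X := Nat.cast_nonneg _
        nlinarith
    _ = Real.log X := Real.exp_log (by linarith)

end Pool.Agent.H96R2.EQP
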