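import Pool.Agent.H96R2.EQP.A
import Pool.Agent.H96R2.EQP.B
import Pool.Agent.H96R2.EQP.C

set_option autoImplicit false

open Finset Filter

namespace Pool.Agent.H96R2.EQP

open Pool.Agent.H361R2.PP

lemma sum_inj (K W N : ℕ) (hW : 0 < W) (F : Finset (Finset ℕ)) (hF : ∀ D ∈ F, ∀ p ∈ D, p.Prime)
    (hN : ∀ D ∈ F, W * ∏ p ∈ D, p ≤ N) (f : ℕ → ℝ) (hf : ∀ q, 0 ≤ f q) :
    ∑ D ∈ F, (K : ℝ) ^ D.card * f (W * ∏ p ∈ D, p) ≤
      ∑ q ∈ Icc 1 N, ((K : ℝ) + 1) ^ q.primeFactors.card * f q := by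
  have hm0 : ∀ D ∈ F, ∏ p ∈ D, p ≠ 0 := fun D hD => (Finset.prod_pos fun p hp => (hF D hD p hp).pos).ne'
  calc ∑ D ∈ F, (K : ℝ) ^ D.card * f (W * ∏ p ∈ D, p)
      ≤ ∑ D ∈ F, ((K : ℝ) + 1) ^ (W * ∏ p ∈ D, p).primeFactors.card * f (W * ∏ p ∈ D, p) := by
        apply sum_le_sum
        intro D hD
        apply mul_le_mul_of_nonneg_right _ (hf _)
        have h1 : D.card ≤ (W * ∏ p ∈ D, p).primeFactors.card := by
          apply card_le_card
          have h2 : (∏ p ∈ D, p).primeFactors = D := Nat.primeFactors_prod (hF D hD)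
          calc D = (∏ p ∈ D, p).primeFactors := h2.symm
            _ ⊆ _ := Nat.primeFactors_mono (dvd_mul_left _ _)
                (Nat.mul_ne_zero hW.ne' (hm0 D hD))
        have hK : (0:ℝ) ≤ K := Nat.cast_nonneg _
        calc (K : ℝ) ^ D.card ≤ ((K : ℝ) + 1) ^ D.card := pow_le_pow_left₀ hK (by linarith) _
          _ ≤ _ := pow_le_pow_right₀ (by linarith) h1
    _ = ∑ q ∈ F.image (fun D => W * ∏ p ∈ D, p), ((K : ℝ) + 1) ^ q.primeFactors.card * f q := by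
        rw [sum_image]
        intro D hD D' hD' h
        have h1 : ∏ p ∈ D, p = ∏ p ∈ D', p := Nat.eq_of_mul_eq_mul_left hW h
        have h2 : (∏ p ∈ D, p).primeFactors = D := Nat.primeFactors_prod (hF D hD)
        have h3 : (∏ p ∈ D', p).primeFactors = D' := Nat.primeFactors_prod (hF D' hD')
        rw [← h2, ← h3, h1]
    _ ≤ _ := by
        apply sum_le_sum_of_subset_of_nonneg
        · intro q hq
          rw [mem_image] at hq
          obtain ⟨D, hD, rfl⟩ := hq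
          rw [mem_Icc]
          exact ⟨Nat.mul_pos hW (Nat.pos_of_ne_zero (hm0 D hD)), hN D hD⟩
        · intro q _ _
          exact mul_nonneg (by positivity) (hf q)

lemma PX_prime {X p : ℕ} (h : p ∈ PX X) : p.Prime ∧ HH X < p ∧ p ≤ X := by
  unfold PX at h
  rw [mem_filter, mem_range] at h
  exact ⟨h.2.1, h.2.2, by omega⟩

lemma W_cop {X : ℕ} (D : Finset ℕ) (hD : ∀ p ∈ D, p ∈ PX X) : (Wm X).Coprime (∏ p ∈ D, p) := by
  apply Nat.Coprime.prod_right
  intro p hp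
  obtain ⟨hpp, hpH, _⟩ := PX_prime (hD p hp)
  apply Nat.Coprime.symm
  rw [Nat.Prime.coprime_iff_not_dvd hpp]
  unfold Wm primorial
  intro h
  rw [hpp.prime.dvd_finset_prod_iff] at h
  obtain ⟨q, hq, hpq⟩ := h
  rw [mem_filter, mem_range] at hq
  have := (Nat.prime_dvd_prime_iff_eq hpp hq.2).mp hpq
  omega

end Pool.Agent.H96R2.EQP
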